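import Pool.Agent.H68.WH.Sep

set_option autoImplicit false

namespace Pool.Agent.Results.MP_908b95_an.SharpConstant

open Pool.Agent.H68.WH

/-- The image of an operator under the Möbius map `z ↦ e^{iθ} (z - a) / (1 - ā z)`. -/
noncomputable def moebius {H : Type} [NormedAddCommGroup H] [InnerProductSpace ℂ H]
    (T : H →L[ℂ] H) (θ : ℝ) (a : ℂ) : H →L[ℂ] H :=
  Complex.exp ((θ : ℂ) * Complex.I) •
    ((T - a • (1 : H →L[ℂ] H)) * Ring.inverse ((1 : H →L[ℂ] H) - (starRingEnd ℂ a) • T))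

/-- `T` is homogeneous (its spectrum lies in the closed disc and every Möbius image of `T` is
unitarily equivalent to `T`). -/
def Homogeneous {H : Type} [NormedAddCommGroup H] [InnerProductSpace ℂ H] [CompleteSpace H]
    (T : H →L[ℂ] H) : Prop :=
  spectrum ℂ T ⊆ Metric.closedBall (0 : ℂ) 1 ∧
  ∀ (θ : ℝ) (a : ℂ), ‖a‖ < 1 → ∃ U ∈ unitary (H →L[ℂ] H), moebius T θ a = U * T * star U

/-- `T` is weakly homogeneous with intertwining operators whose condition numbers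
`‖Γ‖ ‖Γ⁻¹‖` are at most `C`. -/
def WeaklyHomogeneous {H : Type} [NormedAddCommGroup H] [InnerProductSpace ℂ H] [CompleteSpace H]
    (T : H →L[ℂ] H) (C : ℝ) : Prop :=
  spectrum ℂ T ⊆ Metric.closedBall (0 : ℂ) 1 ∧
  ∀ (θ : ℝ) (a : ℂ), ‖a‖ < 1 → ∃ Γ : (H →L[ℂ] H)ˣ,
    ‖(Γ : H →L[ℂ] H)‖ * ‖((Γ⁻¹ : (H →L[ℂ] H)ˣ) : H →L[ℂ] H)‖ ≤ C ∧
    moebius T θ a = (Γ : H →L[ℂ] H) * T * ((Γ⁻¹ : (H →L[ℂ] H)ˣ) : H →L[ℂ] H)

/-- `T` is similar to a homogeneous operator. -/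
def SimilarToHomogeneous {H : Type} [NormedAddCommGroup H] [InnerProductSpace ℂ H]
    [CompleteSpace H] (T : H →L[ℂ] H) : Prop :=
  ∃ S : (H →L[ℂ] H)ˣ,
    Homogeneous ((S : H →L[ℂ] H) * T * ((S⁻¹ : (H →L[ℂ] H)ˣ) : H →L[ℂ] H))

theorem exists_op {E F : Type} [NormedAddCommGroup E] [InnerProductSpace ℂ E] [CompleteSpace E]
    [NormedAddCommGroup F] [InnerProductSpace ℂ F] [CompleteSpace F]
    (e : HilbertBasis ℕ ℂ E) (ε : HilbertBasis ℤ ℂ F) (C : ℝ) (hC : 1 < C) :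
    ∃ T : WithLp 2 (E × E) →L[ℂ] WithLp 2 (E × E), ‖T‖ ≤ C ∧ WeaklyHomogeneous T C ∧
      ¬ SimilarToHomogeneous T := by
  obtain ⟨d⟩ := nonempty_data e
  obtain ⟨δ, hδ, hδ1, hδ2⟩ : ∃ δ : ℝ, 0 < δ ∧ (1 + δ * 8) * (1 + δ * 8) ≤ C ∧
      1 + δ * ‖d.V‖ ≤ C := by
    refine ⟨min (1 / 8) ((C - 1) / (24 + ‖d.V‖)), ?_, ?_, ?_⟩
    · have h1 : 0 < C - 1 := by linarith
      have h2 : 0 < 24 + ‖d.V‖ := by positivity
      exact lt_min (by norm_num) (div_pos h1 h2)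
    · set δ := min (1 / 8) ((C - 1) / (24 + ‖d.V‖)) with hδ
      have h2 : 0 < 24 + ‖d.V‖ := by positivity
      have h3 : δ ≤ 1 / 8 := min_le_left _ _
      have h4 : δ * (24 + ‖d.V‖) ≤ C - 1 := by
        rw [← le_div_iff₀ h2]; exact min_le_right _ _
      have h5 : 0 < δ := lt_min (by norm_num) (div_pos (by linarith) h2)
      have h6 : 0 ≤ δ * ‖d.V‖ := by positivity
      nlinarith
    · set δ := min (1 / 8) ((C - 1) / (24 + ‖d.V‖)) with hδ
      have h2 : 0 < 24 + ‖d.V‖ := by positivity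
      have h4 : δ * (24 + ‖d.V‖) ≤ C - 1 := by
        rw [← le_div_iff₀ h2]; exact min_le_right _ _
      have h5 : 0 < δ := lt_min (by norm_num) (div_pos (by linarith) h2)
      nlinarith
  set s := scSplit (sqSplit E) δ hδ.ne' with hs
  refine ⟨TT d s, ?_, ⟨TT_spec d s, fun θ a ha => ?_⟩, fun ⟨X, hX⟩ => ?_⟩
  · exact (sc_norm δ hδ d.S d.V d.S d.normS d.normS).trans hδ2
  · obtain ⟨ρ, K, h1, h2, h3, h4⟩ := TT_pos2 d s ε _ a (Complex.norm_exp_ofReal_mul_I θ) ha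
    exact ⟨s.blkU ρ (ρ * K), (sc_blkU_norm δ hδ ρ K h1 h2 h3).trans hδ1, h4⟩
  · exact not_homog d s ε X (fun θ a ha => hX.2 θ a ha)

/-- For every `C > 1` there is an operator of norm at most `C` on a separable Hilbert space which is
weakly homogeneous with intertwiners of condition number at most `C` and is not similar to a
homogeneous operator; for `C ≤ 1` weak homogeneity with such a constant implies homogeneity. -/
theorem result :
    (∀ C : ℝ, 1 < C → ∃ (H : Type) (_ : NormedAddCommGroup H) (_ : InnerProductSpace ℂ H)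
      (_ : CompleteSpace H) (T : H →L[ℂ] H), TopologicalSpace.SeparableSpace H ∧
        ‖T‖ ≤ C ∧ WeaklyHomogeneous T C ∧ ¬ SimilarToHomogeneous T) ∧
    (∀ C : ℝ, C ≤ 1 → ∀ (H : Type) [NormedAddCommGroup H] [InnerProductSpace ℂ H]
      [CompleteSpace H] (T : H →L[ℂ] H), WeaklyHomogeneous T C → Homogeneous T) := by
  constructor
  · intro C hC
    obtain ⟨T, hT⟩ := exists_op (default : HilbertBasis ℕ ℂ (lp (fun _ : ℕ => ℂ) 2))
      (default : HilbertBasis ℤ ℂ (lp (fun _ : ℤ => ℂ) 2)) C hC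
    haveI : TopologicalSpace.SeparableSpace (lp (fun _ : ℕ => ℂ) 2) :=
      separable_of_basis (default : HilbertBasis ℕ ℂ (lp (fun _ : ℕ => ℂ) 2))
    exact ⟨_, _, _, _, T, separable_sq _, hT⟩
  · intro C hC H _ _ _ T hT
    refine ⟨hT.1, fun θ a ha => ?_⟩
    obtain ⟨Γ, h1, h2⟩ := hT.2 θ a ha
    obtain ⟨U, hU, hUT⟩ := unitary_of_norm Γ (h1.trans hC)
    exact ⟨U, hU, by rw [h2, hUT T]⟩

end Pool.Agent.Results.MP_908b95_an.SharpConstant
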